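import Pool.Agent.H523.AH.Stm3

set_option autoImplicit false
set_option linter.unusedSectionVars false

/-! # Parseval's inequality for complex coefficients and the characters modulo a polynomial -/

namespace Pool.Agent.H335.AH.P4

open Polynomial Finset
open Pool.Agent.H523.CM (tot parseval2 mk_inj tot_eq_card)

open Pool.Agent.H523.AH

open scoped Classical

variable {F : Type} [Field F] [Fintype F] {Q : F[X]}

/-- Parseval's identity for a sum over polynomials with complex coefficients -/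
theorem parseval_poly (hQ : Q.Monic) [Fintype (AdjoinRoot Q)ˣ] [Fintype (MulChar (AdjoinRoot Q) ℂ)]
    (T : Finset F[X]) (w : F[X] → ℂ) :
    ∑ χ : MulChar (AdjoinRoot Q) ℂ, ‖∑ f ∈ T, w f * χ (AdjoinRoot.mk Q f)‖ ^ 2 =
      (Nat.card (AdjoinRoot Q)ˣ : ℝ) * ∑ u : (AdjoinRoot Q)ˣ,
        ‖∑ f ∈ T.filter (fun f => AdjoinRoot.mk Q f = u), w f‖ ^ 2 := by
  have := Pool.Agent.H523.RH.finite_adjoinRoot hQ
  have h1 : ∀ χ : MulChar (AdjoinRoot Q) ℂ, ∑ f ∈ T, w f * χ (AdjoinRoot.mk Q f) =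
      ∑ u : (AdjoinRoot Q)ˣ, (∑ f ∈ T.filter (fun f => AdjoinRoot.mk Q f = u), w f) *
        χ (u : AdjoinRoot Q) := by
    intro χ
    have h2 : ∀ u : (AdjoinRoot Q)ˣ, (∑ f ∈ T.filter (fun f => AdjoinRoot.mk Q f = u), w f) *
        χ (u : AdjoinRoot Q) = ∑ f ∈ T, if AdjoinRoot.mk Q f = u then
          w f * χ (AdjoinRoot.mk Q f) else 0 := by
      intro u
      rw [← sum_filter, sum_mul]
      refine sum_congr rfl (fun f hf => ?_)
      rw [(mem_filter.mp hf).2]
    rw [sum_congr rfl (fun u _ => h2 u), sum_comm]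
    refine sum_congr rfl (fun f _ => ?_)
    by_cases hu : IsUnit (AdjoinRoot.mk Q f)
    · obtain ⟨u, hu⟩ := hu
      rw [sum_eq_single_of_mem u (mem_univ u)]
      · rw [if_pos hu.symm]
      · intro v _ hv
        rw [if_neg]
        intro h
        exact hv (Units.ext (by rw [← h, hu]))
    · rw [χ.map_nonunit hu, mul_zero]
      symm
      apply sum_eq_zero
      intro u _
      split_ifs <;> rfl
  rw [sum_congr rfl (fun χ _ => by rw [h1 χ]), parseval2]

/-- the sum over the units for an injective set -/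
theorem sum_units_le [Fintype (AdjoinRoot Q)ˣ] (T : Finset F[X]) (w : F[X] → ℂ)
    (hinj : ∀ f ∈ T, ∀ g ∈ T, AdjoinRoot.mk Q f = AdjoinRoot.mk Q g → f = g) :
    ∑ u : (AdjoinRoot Q)ˣ, ‖∑ f ∈ T.filter (fun f => AdjoinRoot.mk Q f = u), w f‖ ^ 2 ≤
      ∑ f ∈ T, ‖w f‖ ^ 2 := by
  have h1 : ∀ u : (AdjoinRoot Q)ˣ, ‖∑ f ∈ T.filter (fun f => AdjoinRoot.mk Q f = u), w f‖ ^ 2 =
      ∑ f ∈ T, if AdjoinRoot.mk Q f = u then ‖w f‖ ^ 2 else 0 := by
    intro u
    rw [← sum_filter]
    rcases (T.filter (fun f => AdjoinRoot.mk Q f = (u : AdjoinRoot Q))).eq_empty_or_nonempty with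
      h | ⟨f, hf⟩
    · rw [h, sum_empty, sum_empty]
      norm_num
    · have h2 : T.filter (fun f => AdjoinRoot.mk Q f = (u : AdjoinRoot Q)) = {f} := by
        ext g
        rw [mem_singleton]
        constructor
        · intro hg
          rw [mem_filter] at hf hg
          exact hinj g hg.1 f hf.1 (by rw [hg.2, hf.2])
        · rintro rfl
          exact hf
      rw [h2, sum_singleton, sum_singleton]
  rw [sum_congr rfl (fun u _ => h1 u), sum_comm]
  refine sum_le_sum (fun f _ => ?_)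
  by_cases hu : ∃ u : (AdjoinRoot Q)ˣ, AdjoinRoot.mk Q f = u
  · obtain ⟨u, hu⟩ := hu
    rw [sum_eq_single_of_mem u (mem_univ u)]
    · rw [if_pos hu]
    · intro v _ hv
      rw [if_neg]
      intro h
      exact hv (Units.ext (by rw [← h, hu]))
  · rw [sum_eq_zero]
    · positivity
    · intro u _
      rw [if_neg (fun h => hu ⟨u, h⟩)]

theorem main : S_P4 := by
  intro F _ _ Q _ hQ T c hT
  have := Pool.Agent.H523.RH.finite_adjoinRoot hQ
  have _ : Fintype (AdjoinRoot Q)ˣ := Fintype.ofFinite _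
  rw [parseval_poly hQ T c, tot_eq_card hQ]
  apply mul_le_mul_of_nonneg_left _ (Nat.cast_nonneg _)
  apply sum_units_le T c
  intro f hf g hg h
  apply mk_inj hQ _ h
  exact (degree_sub_le f g).trans_lt
    (max_lt (degree_lt_degree (hT f hf)) (degree_lt_degree (hT g hg)))

end Pool.Agent.H335.AH.P4
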